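import Pool.Agent.Helper13_Sid.Basic

/-!
Near planar Sidon sets (MP_f1f170_co): rows C0, C1, C2 (classes modulo 2G).
-/

set_option autoImplicit false

namespace Pool.Agent.Sid13

open Finset

variable {G : Type*} [AddCommGroup G] [Fintype G] [DecidableEq G]

section classes

variable {Q : Type*} [AddCommGroup Q] [Fintype Q] [DecidableEq Q]

omit [DecidableEq Q] in
/-- C0: at most `|Q| = |G[2]|` elements `y` with `2y = x`. -/
theorem dbl_fiber (π : G →+ Q) (hs : Function.Surjective π) (hk : ∀ x, π x = 0 ↔ ∃ y, y + y = x)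
    (x : G) : (univ.filter fun y : G => y + y = x).card ≤ Fintype.card Q := by
  classical
  let d : G →+ G := AddMonoidHom.id G + AddMonoidHom.id G
  have hd : ∀ y, d y = y + y := fun y => rfl
  have h1 : Nat.card d.ker * Nat.card d.range = Nat.card G := by
    rw [← AddSubgroup.index_ker]; exact AddSubgroup.card_mul_index d.ker
  have h2 : Nat.card π.ker * Nat.card π.range = Nat.card G := by
    rw [← AddSubgroup.index_ker]; exact AddSubgroup.card_mul_index π.ker
  have h3 : π.ker = d.range := by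
    ext y
    rw [AddMonoidHom.mem_ker, hk, AddMonoidHom.mem_range]
    rfl
  have h4 : Nat.card π.range = Nat.card Q := by
    rw [AddMonoidHom.range_eq_top.2 hs]
    exact Nat.card_congr AddSubgroup.topEquiv.toEquiv
  rw [h3, h4] at h2
  have h5 : 0 < Nat.card d.range := Nat.card_pos
  have h6 : Nat.card d.ker = Nat.card Q := by
    have : Nat.card d.range * Nat.card d.ker = Nat.card d.range * Nat.card Q := by
      rw [h2, mul_comm, h1]
    exact Nat.eq_of_mul_eq_mul_left h5 this
  rw [← Nat.card_eq_fintype_card, ← h6]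
  rcases (univ.filter fun y : G => y + y = x).eq_empty_or_nonempty with h7 | ⟨y₀, hy₀⟩
  · rw [h7]; simp
  · have hy : y₀ + y₀ = x := (mem_filter.1 hy₀).2
    have h8 : (univ.filter fun y : G => y + y = x).card
        ≤ (univ.filter fun y : G => y ∈ d.ker).card := by
      refine Finset.card_le_card_of_injOn (fun y => y - y₀) ?_ ?_
      · intro y hy'
        have h9 : y + y = x := (mem_filter.1 (Finset.mem_coe.1 hy')).2
        refine Finset.mem_coe.2 (mem_filter.2 ⟨mem_univ _, ?_⟩)
        rw [AddMonoidHom.mem_ker, hd]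
        have : y - y₀ + (y - y₀) = (y + y) - (y₀ + y₀) := by abel
        rw [this, h9, hy, sub_self]
      · intro y _ y' _ h
        exact sub_left_injective h
    refine h8.trans ?_
    rw [Nat.card_eq_fintype_card, Fintype.card_subtype]

omit [Fintype G] [DecidableEq G] [Fintype Q] [DecidableEq Q] in
theorem pi_dbl (π : G →+ Q) (hk : ∀ x, π x = 0 ↔ ∃ y, y + y = x) (a c : G) :
    π (a + a - c) = π c := by
  have h1 : π (a + a) = 0 := (hk _).2 ⟨a, rfl⟩
  have h2 : π (c + c) = 0 := (hk _).2 ⟨c, rfl⟩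
  rw [map_sub, h1, zero_sub]
  rw [map_add] at h2
  exact neg_eq_of_add_eq_zero_left h2

/-- C1: `π (2a - c) = - π c = π c`. -/
theorem class_t (A : Finset G) (π : G →+ Q) (hk : ∀ x, π x = 0 ↔ ∃ y, y + y = x) (κ : Q) :
    ∑ g ∈ univ.filter (fun g => π g = κ), tt A g = A.card * mm A π κ := by
  have h1 : ∑ g ∈ univ.filter (fun g => π g = κ), tt A g
      = ∑ g, tt A g * (if π g = κ then 1 else 0) := by
    rw [Finset.sum_filter]
    refine Finset.sum_congr rfl ?_
    intro g _
    split_ifs <;> simp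
  rw [h1, sum_tt_mul]
  have h2 : ∀ a ∈ A, ∑ c ∈ A, (if π (a + a - c) = κ then 1 else 0) = mm A π κ := by
    intro a _
    unfold mm
    rw [Finset.card_filter]
    refine Finset.sum_congr rfl ?_
    intro c _
    rw [pi_dbl π hk]
  rw [Finset.sum_congr rfl h2, Finset.sum_const, smul_eq_mul]

/-- C2 -/
theorem class_tt {A : Finset G} (hA : IsSidon A) (π : G →+ Q) (hs : Function.Surjective π)
    (hk : ∀ x, π x = 0 ↔ ∃ y, y + y = x) (κ : Q) :
    ∑ g ∈ univ.filter (fun g => π g = κ), tt A g ^ 2 + Fintype.card Q * mm A π κ ≤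
      A.card * mm A π κ + Fintype.card Q * mm A π κ ^ 2 := by
  classical
  set B : Finset G := A.filter fun a => π a = κ with hB
  have hmB : mm A π κ = B.card := rfl
  have h1 : ∑ g ∈ univ.filter (fun g => π g = κ), tt A g ^ 2
      = ∑ g, tt A g * (if π g = κ then tt A g else 0) := by
    rw [Finset.sum_filter]
    refine Finset.sum_congr rfl ?_
    intro g _
    split_ifs
    · rw [sq]
    · simp
  have h2 : ∑ a ∈ A, ∑ c ∈ A, (if π (a + a - c) = κ then tt A (a + a - c) else 0)
      = ∑ p ∈ A ×ˢ B, tt A (p.1 + p.1 - p.2) := by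
    rw [Finset.sum_product]
    refine Finset.sum_congr rfl ?_
    intro a _
    rw [hB, Finset.sum_filter]
    refine Finset.sum_congr rfl ?_
    intro c _
    rw [pi_dbl π hk]
  -- each term
  have h3 : ∀ p ∈ A ×ˢ B, tt A (p.1 + p.1 - p.2)
      = 1 + ((A.erase p.1).filter (fun a' => a' + a' - (p.1 + p.1 - p.2) ∈ A)).card := by
    rintro ⟨a, c⟩ hp
    rw [Finset.mem_product] at hp
    obtain ⟨ha, hc⟩ := hp
    have hc' : c ∈ A := (mem_filter.1 hc).1
    show tt A (a + a - c)
      = 1 + ((A.erase a).filter (fun a' => a' + a' - (a + a - c) ∈ A)).card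
    unfold tt
    have h4 : A.filter (fun a' => a' + a' - (a + a - c) ∈ A)
        = insert a ((A.erase a).filter (fun a' => a' + a' - (a + a - c) ∈ A)) := by
      ext b
      simp only [mem_filter, mem_insert, mem_erase]
      constructor
      · rintro ⟨hb, h⟩
        by_cases hba : b = a
        · exact Or.inl hba
        · exact Or.inr ⟨⟨hba, hb⟩, h⟩
      · rintro (rfl | ⟨⟨_, hb⟩, h⟩)
        · refine ⟨ha, ?_⟩
          have : b + b - (b + b - c) = c := by abel
          rw [this]; exact hc'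
        · exact ⟨hb, h⟩
    rw [h4, Finset.card_insert_of_notMem (by simp), add_comm]
  have h5 : ∑ p ∈ A ×ˢ B, tt A (p.1 + p.1 - p.2) = A.card * B.card
      + ((A ×ˢ B).sigma (fun p => (A.erase p.1).filter
          (fun a' => a' + a' - (p.1 + p.1 - p.2) ∈ A))).card := by
    rw [Finset.sum_congr rfl h3, Finset.sum_add_distrib, Finset.card_sigma, ← Finset.card_product,
      Finset.card_eq_sum_ones (A ×ˢ B)]
  have h6 : ((A ×ˢ B).sigma (fun p => (A.erase p.1).filter
          (fun a' => a' + a' - (p.1 + p.1 - p.2) ∈ A))).card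
      ≤ (B.offDiag.sigma (fun q => univ.filter (fun y : G => y + y = q.2 - q.1))).card := by
    refine Finset.card_le_card_of_injOn
      (fun z => ⟨(z.1.2, z.2 + z.2 - (z.1.1 + z.1.1 - z.1.2)), z.2 - z.1.1⟩) ?_ ?_
    · rintro ⟨⟨a, c⟩, a'⟩ hz
      rw [Finset.mem_coe] at hz
      simp only [Finset.mem_sigma, Finset.mem_product, mem_filter, mem_erase] at hz
      obtain ⟨⟨ha, hc⟩, ⟨hne, ha'⟩, hz⟩ := hz
      rw [hB] at hc
      obtain ⟨hcA, hcκ⟩ := mem_filter.1 hc
      rw [Finset.mem_coe]
      simp only [Finset.mem_sigma, mem_offDiag, mem_filter, mem_univ, true_and]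
      refine ⟨⟨hc, ?_, ?_⟩, ?_⟩
      · rw [hB, mem_filter]
        refine ⟨hz, ?_⟩
        rw [pi_dbl π hk, pi_dbl π hk, hcκ]
      · intro h
        apply hne
        refine hA.dbl_inj ha' ha ?_
        have h7 : a' + a' = (a' + a' - (a + a - c)) + (a + a - c) := by abel
        rw [h7, ← h]; abel
      · abel
    · rintro ⟨⟨a, c⟩, a'⟩ hz ⟨⟨b, d⟩, b'⟩ hz' heq
      rw [Finset.mem_coe] at hz hz'
      simp only [Finset.mem_sigma, Finset.mem_product, mem_filter, mem_erase] at hz hz'
      obtain ⟨⟨ha, hc⟩, ⟨hne, ha'⟩, _⟩ := hz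
      obtain ⟨⟨hb, hd⟩, ⟨hne', hb'⟩, _⟩ := hz'
      simp only [Sigma.mk.injEq, Prod.mk.injEq, heq_eq_eq] at heq
      obtain ⟨⟨rfl, _⟩, h8⟩ := heq
      obtain ⟨rfl, rfl⟩ := hA.diff_unique ha' ha hb' hb hne h8
      rfl
  have h7 : (B.offDiag.sigma (fun q => univ.filter (fun y : G => y + y = q.2 - q.1))).card
      ≤ B.offDiag.card * Fintype.card Q := by
    rw [Finset.card_sigma]
    exact Finset.sum_le_card_nsmul _ _ _ (fun q _ => dbl_fiber π hs hk _)
  rw [h1, sum_tt_mul, h2, h5, hmB]
  rw [Finset.offDiag_card] at h7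
  have h8 : B.card ≤ B.card * B.card := Nat.le_mul_self _
  have h9 : (B.card * B.card - B.card) * Fintype.card Q + Fintype.card Q * B.card
      = Fintype.card Q * B.card ^ 2 := by
    rw [mul_comm (Fintype.card Q) B.card, ← add_mul, Nat.sub_add_cancel h8]
    ring
  have h10 := h6.trans h7
  linarith

end classes

end Pool.Agent.Sid13
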